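import Pool.Agent.Lib.MP_2abbea_co.FcMain

set_option autoImplicit false

namespace Pool.Agent.Results.MP_2abbea_co.FewClasses

open Pool.Agent.Lib.MP_2abbea_co.Fc

theorem pk {k n : ℕ} {G : SimpleGraph (Fin n)}
    (h : ∀ S : Finset (Fin n), ∃ I : Finset (Fin n), I ⊆ S ∧
      G.IsIndepSet (I : Set (Fin n)) ∧ (S.card : ℝ) / 2 - (k : ℝ) ≤ (I.card : ℝ)) :
    Pk G Finset.univ (2 * k) := fun S _ => by
  obtain ⟨I, a, b, c⟩ := h S
  refine ⟨I, a, fun u hu v hv e => b hu hv e.ne e, ?_⟩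
  have : (S.card : ℝ) ≤ 2 * I.card + 2 * k := by linarith
  exact_mod_cast this

theorem colorable {n m : ℕ} {G : SimpleGraph (Fin n)} {S : Finset (Fin n)}
    (h : Col G (Finset.univ \ S) m) : (G.induce {v | v ∉ S}).Colorable m := by
  obtain ⟨c, a, b⟩ := h
  have h1 : ∀ v : {v | v ∉ S}, v.1 ∈ Finset.univ \ S := fun v =>
    Finset.mem_sdiff.2 ⟨Finset.mem_univ _, v.2⟩
  exact ⟨SimpleGraph.Coloring.mk (fun v => ⟨c v, a v (h1 v)⟩)
    fun {u v} e x => b u (h1 u) v (h1 v) e (congrArg Fin.val x)⟩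

/-- Six colours suffice after deleting `4 k 256 ^ k` vertices. -/
theorem six_classes (k n : ℕ) (G : SimpleGraph (Fin n))
    (h : ∀ S : Finset (Fin n), ∃ I : Finset (Fin n), I ⊆ S ∧
      G.IsIndepSet (I : Set (Fin n)) ∧ (S.card : ℝ) / 2 - (k : ℝ) ≤ (I.card : ℝ)) :
    ∃ S : Finset (Fin n), S.card ≤ 4 * k * 256 ^ k ∧ (G.induce {v | v ∉ S}).Colorable 6 := by
  obtain ⟨S, a, b⟩ := six (pk h)
  refine ⟨S, a.trans (le_of_eq ?_), colorable b⟩
  rw [pow_mul]
  ring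

/-- If every vertex set `S` of a finite graph contains an independent set of size at least
`|S| / 2 - k`, then deleting at most `2 k` vertices leaves a graph of chromatic number at most
`15 ⌊log₂ k⌋ + 42`. -/
theorem result (k n : ℕ) (G : SimpleGraph (Fin n))
    (h : ∀ S : Finset (Fin n), ∃ I : Finset (Fin n), I ⊆ S ∧
      G.IsIndepSet (I : Set (Fin n)) ∧ (S.card : ℝ) / 2 - (k : ℝ) ≤ (I.card : ℝ)) :
    ∃ S : Finset (Fin n), S.card ≤ 2 * k ∧
      (G.induce {v | v ∉ S}).Colorable (15 * Nat.log 2 k + 42) := by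
  obtain ⟨S, a, b⟩ := few (pk h)
  refine ⟨S, a, colorable (b.mono subset_rfl ?_)⟩
  rcases Nat.eq_zero_or_pos k with rfl | hk
  · simp
  · rw [mul_comm 2 k, Nat.log_mul_base (by omega) hk.ne']
    omega

end Pool.Agent.Results.MP_2abbea_co.FewClasses
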