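import Pool.Agent.Lib.MP_2abbea_co.FrMain

set_option autoImplicit false

namespace Pool.Agent.Results.MP_2abbea_co.FractionalReed

open Pool.Agent.Lib.MP_2abbea_co.Fc Pool.Agent.Lib.MP_2abbea_co.Fr

theorem long {q k n : ℕ} (hq : 1 ≤ q) {G : SimpleGraph (Fin n)}
    (h : ∀ X : Finset (Fin n), ∃ I : Finset (Fin n), I ⊆ X ∧ G.IsIndepSet (I : Set (Fin n)) ∧
      (X.card : ℝ) / 2 - (k : ℝ) -
        (X.card : ℝ) / (168 * (q : ℝ) * (Nat.log 2 (X.card + 2) : ℝ)) ≤ (I.card : ℝ))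
    {Y : Finset (Fin n)} {j L : ℕ} (hj : 4 * k ≤ j) (hj0 : 0 < j) (hY : Df G Y j)
    (hL : Y.card ≤ j * L) : 42 * q * Nat.log 2 (j + 2) ≤ L := by
  obtain ⟨I, a, b, c⟩ := h Y
  have h1 := hY I a fun u hu v hv e => b hu hv e.ne e
  have h2 : Nat.log 2 (j + 2) ≤ Nat.log 2 (Y.card + 2) := Nat.log_mono_right (by omega)
  have h3 : 0 < Nat.log 2 (j + 2) := Nat.log_pos (by norm_num) (by omega)
  refine le_trans (Nat.mul_le_mul_left _ h2) ?_
  have h4 : 0 < Nat.log 2 (Y.card + 2) := h3.trans_le h2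
  generalize Nat.log 2 (Y.card + 2) = g at c h4
  have h5 : (2 * I.card + j : ℝ) ≤ Y.card := by exact_mod_cast h1
  have h6 : (4 * k : ℝ) ≤ j := by exact_mod_cast hj
  have h7 : (Y.card : ℝ) ≤ j * L := by exact_mod_cast hL
  have h8 : (0 : ℝ) < j := by exact_mod_cast hj0
  have h9 : (0 : ℝ) < 168 * (q : ℝ) * g := by positivity
  have h10 : (j : ℝ) / 4 ≤ Y.card / (168 * (q : ℝ) * g) := by linarith
  rw [le_div_iff₀ h9] at h10
  have h11 : (j : ℝ) * (42 * (q : ℝ) * g) ≤ j * L := by linarith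
  exact_mod_cast le_of_mul_le_mul_left h11 h8

/-- If every vertex set `X` contains an independent set of size at least
`|X| / 2 - k - |X| / (168 q ⌊log₂ (|X| + 2)⌋)`, then there is a set `S` of at most
`168 q k ⌊log₂ (4 k + 2)⌋` vertices such that for every nonnegative weighting of the vertices
some set `T` of at most a `3 / q` share of the total weight leaves `G - S - T` bipartite. -/
theorem result (q k n : ℕ) (hq : 1 ≤ q) (G : SimpleGraph (Fin n))
    (h : ∀ X : Finset (Fin n), ∃ I : Finset (Fin n), I ⊆ X ∧ G.IsIndepSet (I : Set (Fin n)) ∧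
      (X.card : ℝ) / 2 - (k : ℝ) -
        (X.card : ℝ) / (168 * (q : ℝ) * (Nat.log 2 (X.card + 2) : ℝ)) ≤ (I.card : ℝ)) :
    ∃ S : Finset (Fin n), S.card ≤ 168 * q * k * Nat.log 2 (4 * k + 2) ∧
      ∀ w : Fin n → ℝ, (∀ v, 0 ≤ w v) → ∃ T : Finset (Fin n),
        ∑ v ∈ T, w v ≤ 3 / (q : ℝ) * ∑ v, w v ∧
          (G.induce {v | v ∉ S ∧ v ∉ T}).Colorable 2 := by
  obtain ⟨S, a, b⟩ := peel (G := G) (N := 4 * k) (lam := 42 * q * Nat.log 2 (4 * k + 2))
    (fun Y c d => by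
      have e : Nat.log 2 (4 * k + 2) ≤ Nat.log 2 (4 * k + 1 + 2) := Nat.log_mono_right (by omega)
      have f := Nat.mul_le_mul_left (42 * q) e
      have g : 0 < 42 * q * Nat.log 2 (4 * k + 2) :=
        Nat.mul_pos (by positivity) (Nat.log_pos (by norm_num) (by omega))
      generalize 42 * q * Nat.log 2 (4 * k + 2) = m at d f g
      obtain ⟨m, rfl⟩ : ∃ m', m = m' + 1 := ⟨m - 1, by omega⟩
      have := long hq h (L := m) (Nat.le_succ _) (Nat.succ_pos _) c
        (by rw [Nat.mul_succ] at d; exact Nat.le_of_add_le_add_right d)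
      exact absurd (f.trans this) (by omega))
    (4 * k + 1) 0 ∅ (by omega) df_empty (by simp)
  refine ⟨S, a.trans (le_of_eq (by ring)), fun w hw => ?_⟩
  obtain ⟨T, c, f, d, e⟩ := carve (G := G) (lam := 42 * q * Nat.log 2 (4 * k + 2)) hq hw
    (W := ∑ v, w v) (fun Y j L x y z => by
      by_cases hj : 4 * k ≤ j + 1
      · exact le_trans (Nat.mul_le_mul_left _ (Nat.log_mono_right (by omega)))
          (long hq h hj (Nat.succ_pos _) x y)
      · exact le_trans (Nat.mul_le_mul_left _ (Nat.log_mono_right (by omega))) z)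
    (Finset.univ \ S) 0 ∅ 0 (Finset.disjoint_empty_left _) df_empty (by simp)
    (fun _ _ _ _ => Nat.zero_le _) b
    (Finset.sum_le_sum_of_subset_of_nonneg (Finset.subset_univ _) fun v _ _ => hw v)
  have h1 : ∀ v : {v | v ∉ S ∧ v ∉ T}, v.1 ∈ (Finset.univ \ S) \ T := fun v =>
    Finset.mem_sdiff.2 ⟨Finset.mem_sdiff.2 ⟨Finset.mem_univ _, v.2.1⟩, v.2.2⟩
  have h0 : (G.induce {v | v ∉ S ∧ v ∉ T}).Colorable 2 :=
    ⟨SimpleGraph.Coloring.mk (fun v => ⟨f v, d v (h1 v)⟩)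
      fun {u v} x y => e u (h1 u) v (h1 v) x (congrArg Fin.val y)⟩
  refine ⟨T, c.trans ?_, h0⟩
  have h2 : ∑ v ∈ Finset.univ \ S, w v ≤ ∑ v, w v :=
    Finset.sum_le_sum_of_subset_of_nonneg (Finset.subset_univ _) fun v _ _ => hw v
  have h3 := mul_le_mul_of_nonneg_left h2 (show (0 : ℝ) ≤ 2 * (1 / q) by positivity)
  have h4 : (3 : ℝ) / q = 3 * (1 / q) := by ring
  rw [h4, Nat.cast_zero, zero_add, div_one]
  linarith

end Pool.Agent.Results.MP_2abbea_co.FractionalReed
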