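import Mathlib

set_option autoImplicit false

namespace Pool.Agent.Results.MP_2abbea_co.HallRatio

open Finset

/-- Variance of a `1`-Lipschitz function on the cube. -/
theorem var (d : ℕ) : ∀ f : (Fin d → Bool) → ℝ,
    (∀ x y, f x - f y ≤ ∑ i, if x i = y i then (0 : ℝ) else 1) →
    2 ^ d * ∑ x, f x ^ 2 - (∑ x, f x) ^ 2 ≤ (2 ^ d) ^ 2 * d / 4 := by
  induction d with
  | zero =>
    intro f _
    simp
  | succ d ih =>
    intro f hf
    have hs : ∀ g : (Fin (d + 1) → Bool) → ℝ,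
        ∑ x, g x = ∑ x, g (Fin.cons true x) + ∑ x, g (Fin.cons false x) := fun g => by
      rw [← (Fin.consEquiv fun _ => Bool).sum_comp, Fintype.sum_prod_type, Fintype.sum_bool]
      rfl
    have h1 : ∀ b, _ := fun b : Bool => ih (fun x => f (Fin.cons b x)) fun x y => by
      simpa [Fin.sum_univ_succ] using hf (Fin.cons b x) (Fin.cons b y)
    have h2 : ∀ b b' : Bool, ∑ x, f (Fin.cons b x) - ∑ x, f (Fin.cons b' x) ≤ 2 ^ d := by
      intro b b'
      rw [← sum_sub_distrib]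
      refine (sum_le_card_nsmul _ _ 1 fun x _ => (hf _ _).trans ?_).trans (by simp)
      rw [Fin.sum_univ_succ]
      simp only [Fin.cons_zero, Fin.cons_succ, if_true, sum_const_zero, add_zero]
      split_ifs <;> norm_num
    have h3 := sq_le_sq' (by linarith [h2 false true]) (h2 true false)
    rw [hs f, hs fun x => f x ^ 2, pow_succ 2 d]
    push_cast
    nlinarith [h1 true, h1 false]

/-- A family without nearly antipodal pairs is small. -/
theorem cube {d : ℕ} {t : ℝ} (ht : 0 ≤ t) (A : Finset (Fin d → Bool))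
    (h : ∀ p ∈ A, ∀ q ∈ A, t ≤ ∑ i, if p i = q i then (1 : ℝ) else 0) :
    A.card * t ^ 2 ≤ 2 ^ d * d := by
  rcases A.eq_empty_or_nonempty with rfl | hA
  · simp only [card_empty, Nat.cast_zero, zero_mul]
    positivity
  obtain ⟨f, hf⟩ : ∃ f : (Fin d → Bool) → ℝ,
    ∀ x, f x = A.inf' hA fun a => ∑ i, if x i = a i then (0 : ℝ) else 1 := ⟨_, fun _ => rfl⟩
  have h1 : ∀ x, ∀ a ∈ A, f x ≤ ∑ i, if x i = a i then (0 : ℝ) else 1 := fun x a ha => by
    rw [hf]
    exact inf'_le _ ha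
  have h2 := var d f fun x y => by
    obtain ⟨a, ha, e⟩ := exists_mem_eq_inf' hA fun a => ∑ i, if y i = a i then (0 : ℝ) else 1
    rw [hf y, e, sub_le_iff_le_add, ← sum_add_distrib]
    refine (h1 x a ha).trans (sum_le_sum fun i _ => ?_)
    cases x i <;> cases y i <;> cases a i <;> simp
  have hN : (0 : ℝ) < 2 ^ d := by positivity
  obtain ⟨M, hM⟩ : ∃ M, ∑ x, f x = 2 ^ d * M := ⟨(∑ x, f x) / 2 ^ d, by field_simp⟩
  have h3 : ∑ x, (f x - M) ^ 2 ≤ 2 ^ d * d / 4 := by
    have : ∑ x, (f x - M) ^ 2 = ∑ x, f x ^ 2 - 2 * M * ∑ x, f x + 2 ^ d * M ^ 2 := by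
      simp only [sub_sq, sum_add_distrib, sum_sub_distrib, mul_sum, sum_const, card_univ,
        Fintype.card_fun, Fintype.card_bool, Fintype.card_fin, nsmul_eq_mul]
      push_cast
      congr 2
      exact sum_congr rfl fun _ _ => by ring
    rw [this, hM]
    rw [hM] at h2
    refine le_of_mul_le_mul_left ?_ hN
    nlinarith
  have hi : Function.Involutive fun (x : Fin d → Bool) i => !x i := fun x => by simp
  have h4 : ∑ x : Fin d → Bool, (f (fun i => !x i) - M) ^ 2 = ∑ x, (f x - M) ^ 2 :=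
    Equiv.sum_comp (hi.toPerm _) fun x => (f x - M) ^ 2
  have h5 : ∑ _q ∈ A, t ^ 2 ≤ ∑ q ∈ A, 2 * ((f q - M) ^ 2 + (f (fun i => !q i) - M) ^ 2) :=
    sum_le_sum fun q hq => by
      have a1 : f q ≤ 0 := by simpa using h1 q q hq
      have a2 : t ≤ f fun i => !q i := by
        rw [hf]
        refine le_inf' _ _ fun a ha => (h q hq a ha).trans (sum_le_sum fun i _ => ?_)
        cases q i <;> cases a i <;> simp
      nlinarith [sq_nonneg (f q + f (fun i => !q i) - 2 * M)]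
  have h6 := h5.trans (sum_le_sum_of_subset_of_nonneg (subset_univ A) fun _ _ _ => by positivity)
  rw [← mul_sum, sum_add_distrib, h4, sum_const, nsmul_eq_mul] at h6
  linarith

/-- Greedy colouring. -/
theorem greedy {L s : ℕ} (hs : 0 < s) (r : Fin L → Fin L → Prop) (H : Finset (Fin L)) :
    (∀ j ∈ H, ∀ D ⊆ H, (∀ i ∈ D, i < j ∧ r i j) → D.card < s) →
    ∃ c : Fin L → ℕ, (∀ i, c i < s) ∧ ∀ i ∈ H, ∀ j ∈ H, i < j → r i j → c i ≠ c j := by
  classical
  induction H using Finset.induction_on_max with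
  | empty => exact fun _ => ⟨fun _ => 0, fun _ => hs, by simp⟩
  | insert a H ha ih =>
    intro h
    obtain ⟨c, h1, h2⟩ := ih fun j hj D hD =>
      h j (mem_insert_of_mem hj) D (hD.trans (subset_insert _ _))
    have h3 := h a (mem_insert_self _ _) (H.filter fun i => r i a)
      ((filter_subset _ _).trans (subset_insert _ _))
      fun i hi => ⟨ha i (mem_filter.1 hi).1, (mem_filter.1 hi).2⟩
    obtain ⟨κ, k1, k2⟩ := exists_mem_notMem_of_card_lt_card
      (s := (H.filter fun i => r i a).image c) (t := range s)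
      (by rw [card_range]; exact card_image_le.trans_lt h3)
    refine ⟨fun i => if i = a then κ else c i, fun i => ?_, fun i hi j hj hij hr => ?_⟩
    · dsimp only
      split_ifs
      exacts [mem_range.1 k1, h1 i]
    · have hi' : i ∈ H := (mem_insert.1 hi).resolve_left fun e => by
        rcases mem_insert.1 hj with e' | e'
        · exact hij.ne (e.trans e'.symm)
        · exact lt_asymm hij (e ▸ ha j e')
      dsimp only
      rw [if_neg (ha i hi').ne]
      split_ifs with e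
      · exact fun e' => k2 (mem_image.2 ⟨i, mem_filter.2 ⟨hi', e ▸ hr⟩, e'⟩)
      · exact h2 i hi' j ((mem_insert.1 hj).resolve_left e) hij hr

theorem heavy {L s d : ℕ} (hs : 0 < s) {t : ℝ} (ht : 0 ≤ t) (htd : t ≤ d)
    (p : Fin L → Fin d → Bool) (hp : Function.Injective p) (H : Finset (Fin L))
    (h : ∀ j ∈ H, ∀ D ⊆ H, (∀ i ∈ D, i < j ∧
      (∑ c, if p i c = p j c then (1 : ℝ) else 0) < t) → D.card < s) :
    H.card * t ^ 2 ≤ s * (2 ^ d * d) := by
  obtain ⟨c, h1, h2⟩ := greedy hs _ H h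
  rw [card_eq_sum_card_fiberwise (f := c) (t := range s) fun i _ => mem_coe.2 (mem_range.2 (h1 i))]
  push_cast
  rw [sum_mul]
  refine (sum_le_card_nsmul _ _ _ fun κ _ => ?_).trans (by rw [card_range, nsmul_eq_mul])
  rw [← card_image_of_injective _ hp]
  refine cube ht _ fun x hx y hy => ?_
  obtain ⟨i, hi, rfl⟩ := mem_image.1 hx
  obtain ⟨j, hj, rfl⟩ := mem_image.1 hy
  rw [mem_filter] at hi hj
  rcases lt_trichotomy i j with e | rfl | e
  · exact not_lt.1 fun hr => h2 i hi.1 j hj.1 e hr (hi.2.trans hj.2.symm)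
  · simpa using htd
  · refine not_lt.1 fun hr => h2 j hj.1 i hi.1 e ?_ (hj.2.trans hi.2.symm)
    simpa only [eq_comm] using hr

/-- Union bound over boxes. -/
theorem box {E V ι : Type} [Fintype E] [DecidableEq E] (W : E → Finset V)
    (hW : ∀ e, (W e).Nonempty) (J : Finset ι) (F : ι → Finset E) (T : ι → E → Finset V)
    (h : ∑ b ∈ J, ∏ e ∈ F b, ((T b e).card / (W e).card : ℝ) < 1) :
    ∃ ω : E → V, (∀ e, ω e ∈ W e) ∧ ∀ b ∈ J, ∃ e ∈ F b, ω e ∉ T b e := by
  classical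
  by_contra hc
  push Not at hc
  have h1 : Fintype.piFinset W ⊆
      J.biUnion fun b => Fintype.piFinset fun e => if e ∈ F b then T b e else W e := fun ω hω => by
    rw [Fintype.mem_piFinset] at hω
    obtain ⟨b, hb, h2⟩ := hc ω hω
    refine mem_biUnion.2 ⟨b, hb, Fintype.mem_piFinset.2 fun e => ?_⟩
    split_ifs with he
    exacts [h2 e he, hω e]
  have h2 := (card_le_card h1).trans card_biUnion_le
  simp only [Fintype.card_piFinset] at h2
  have h3 : ∀ e, (0 : ℝ) < (W e).card := fun e => by exact_mod_cast (hW e).card_pos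
  have h4 : (0 : ℝ) < ∏ e, ((W e).card : ℝ) := prod_pos fun e _ => h3 e
  have h5 : ∀ b, ∏ e ∈ F b, ((T b e).card / (W e).card : ℝ) =
      (∏ e, ((if e ∈ F b then T b e else W e).card : ℝ)) / ∏ e, ((W e).card : ℝ) := fun b => by
    rw [← prod_div_distrib, ← prod_subset (subset_univ (F b)) fun e _ he => by
      rw [if_neg he, div_self (h3 e).ne']]
    exact prod_congr rfl fun e he => by rw [if_pos he]
  simp only [h5] at h
  rw [← sum_div, div_lt_one h4] at h
  exact absurd h (not_lt.2 (by exact_mod_cast h2))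

theorem sumX {N : ℕ} {κ : ℝ} (h0 : 0 ≤ κ) (hκ : 12 * κ ≤ 1) (hN : 0 < N) :
    ∑ X ∈ (univ : Finset (Finset (Fin N))).erase ∅, (κ * X.card / N) ^ X.card ≤ 1 / 3 := by
  have h1 := sum_powerset_apply_card (fun m : ℕ => (κ * m / N) ^ m) (x := (univ : Finset (Fin N)))
  rw [powerset_univ, ← add_sum_erase _ _ (mem_univ ∅), card_univ, Fintype.card_fin] at h1
  have h2 : ∀ k, ∑ m ∈ range k, (1 / 4 : ℝ) ^ m = 4 / 3 - 4 / 3 * (1 / 4) ^ k := fun k => by
    induction k with
    | zero => simp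
    | succ k ih =>
      rw [sum_range_succ, ih]
      ring
  have hN' : (0 : ℝ) < N := by exact_mod_cast hN
  have h3 : ∀ m ∈ range (N + 1), N.choose m • (κ * m / N) ^ m ≤ (1 / 4 : ℝ) ^ m := fun m _ => by
    have a1 := Real.pow_div_factorial_le_exp (m : ℝ) (Nat.cast_nonneg m) m
    have a2 : Real.exp m = Real.exp 1 ^ m := (Real.exp_one_pow m).symm
    calc N.choose m • (κ * m / N) ^ m ≤ (N : ℝ) ^ m / m.factorial * (κ * m / N) ^ m := by
          rw [nsmul_eq_mul]
          exact mul_le_mul_of_nonneg_right (Nat.choose_le_pow_div m N) (by positivity)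
      _ = κ ^ m * ((m : ℝ) ^ m / m.factorial) := by
          rw [div_pow, mul_pow]
          field_simp
      _ ≤ κ ^ m * Real.exp 1 ^ m := mul_le_mul_of_nonneg_left (a2 ▸ a1) (by positivity)
      _ ≤ (1 / 4 : ℝ) ^ m := by
          rw [← mul_pow]
          exact pow_le_pow_left₀ (by positivity) (by nlinarith [Real.exp_one_lt_three]) m
  have h4 := (sum_le_sum h3).trans_eq (h2 _)
  have h5 : (0 : ℝ) ≤ (1 / 4) ^ (N + 1) := by positivity
  simp only [card_empty, pow_zero] at h1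
  linarith

theorem slot {L B N m a i δ : ℝ} (hδ : 0 < δ) (hB : 0 < B) (hN : 0 < N) (hm : 0 < m)
    (h1 : δ * m < a) (h2 : B * a ≤ i) (h3 : N * a ≤ L * i ^ 2) :
    (m / i) ^ 4 ≤ L / (δ ^ 3 * B ^ 2) * m / N := by
  have a1 : B * (δ * m) ≤ i := (mul_le_mul_of_nonneg_left h1.le hB.le).trans h2
  have hi : 0 < i := lt_of_lt_of_le (by positivity) a1
  have a2 : N * (δ * m) ≤ L * i ^ 2 := (mul_le_mul_of_nonneg_left h1.le hN.le).trans h3
  have a3 := mul_le_mul (pow_le_pow_left₀ (by positivity) a1 2) a2 (by positivity) (by positivity)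
  rw [div_pow, div_mul_eq_mul_div, div_div, div_le_div_iff₀ (by positivity) (by positivity)]
  nlinarith [mul_le_mul_of_nonneg_left a3 hm.le]

/-- The random choice of one vertex in each level for each vertex. -/
theorem exist {N L B K : ℕ} {δ : ℝ} (hδ : 0 < δ) (lev : Fin N → Fin L)
    (W : Fin L → Finset (Fin N)) (hW : ∀ v i, v ∈ W i ↔ lev v = i) (hK : 0 < K) (hN : 0 < N)
    (hB : 2 * L + 1 ≤ B) (hB' : 12 * (2 ^ L * L) ≤ δ ^ 3 * (B : ℝ) ^ 2)
    (P0 : ∀ i, B ≤ (W i).card) (P1 : ∀ i j, i < j → B * (W i).card ≤ (W j).card)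
    (P2 : ∀ i j k, i < j → (W k).card * (W i).card ≤ (W j).card ^ 2) :
    ∃ ω : Fin N × Fin L → Fin N, (∀ e, lev (ω e) = e.2) ∧
      (∀ (X : Finset (Fin N)) (F : Finset (Fin N × Fin L)), X ≠ ∅ →
        (∀ e ∈ F, e.1 ∈ X ∧ ω e ∈ X ∧ ∃ a, δ * X.card < (W a).card ∧ a < e.2) →
        F.card < 4 * X.card) ∧
      ∀ (Y : Finset (Fin N)) (j : Fin L) (D : Finset (Fin L)), (∀ v ∈ Y, lev v ≤ j) →
        (W j).card ≤ 2 * K * (W j ∩ Y).card →
        (∀ i ∈ D, (W i).card ≤ 2 * K * (W i ∩ Y).card ∧ ∀ v ∈ W j ∩ Y, ω (v, i) ∉ Y) →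
        D.card < 12 * K ^ 2 := by
  classical
  have hB0 : 0 < B := by omega
  have hn : ∀ i, (0 : ℝ) < (W i).card := fun i => by exact_mod_cast hB0.trans_le (P0 i)
  have hf : ∀ Z : Finset (Fin N), Z.card = ∑ i, (W i ∩ Z).card := fun Z => by
    rw [card_eq_sum_card_fiberwise (f := lev) (t := univ) fun _ _ => mem_coe.2 (mem_univ _)]
    exact sum_congr rfl fun i _ => congrArg card (by ext v; simp [hW, and_comm])
  have hNs : ∀ a, N * a = ∑ i, (W i).card * a := fun a => by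
    rw [← sum_mul]
    exact congrArg (· * a) (by simpa using hf univ)
  have hd : ∀ a b : ℕ, (0 : ℝ) ≤ a / b := fun a b => by positivity
  obtain ⟨κ, hκ⟩ : ∃ κ : ℝ, κ = L / (δ ^ 3 * B ^ 2) := ⟨_, rfl⟩
  have hB1 : (0 : ℝ) < B := by exact_mod_cast hB0
  have hκ0 : 0 ≤ κ := by rw [hκ]; positivity
  have hN' : (0 : ℝ) < N := by exact_mod_cast hN
  have hA : ∑ X ∈ (univ : Finset (Finset (Fin N))).erase ∅,
      ∑ F ∈ (X ×ˢ univ).powerset.filter (fun F : Finset (Fin N × Fin L) => F.card = 4 * X.card ∧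
        ∀ e ∈ F, ∃ a, δ * X.card < (W a).card ∧ a < e.2),
      ∏ e ∈ F, (X.card / (W e.2).card : ℝ) ≤ 1 / 3 := by
    refine le_trans (sum_le_sum fun X hX => ?_) (sumX (κ := 2 ^ L * κ) (by positivity) ?_ hN)
    · have hm : (0 : ℝ) < X.card := by
        exact_mod_cast card_pos.2 (nonempty_iff_ne_empty.2 (ne_of_mem_erase hX))
      have hσ : 0 ≤ κ * X.card / N := div_nonneg (mul_nonneg hκ0 hm.le) hN'.le
      refine (sum_le_card_nsmul _ _ ((κ * X.card / N) ^ X.card) fun F hF => ?_).trans ?_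
      · obtain ⟨f1, f2⟩ := (mem_filter.1 hF).2
        rw [← pow_le_pow_iff_left₀ (prod_nonneg fun _ _ => hd _ _) (pow_nonneg hσ _)
          four_ne_zero, ← prod_pow, ← pow_mul, mul_comm _ 4, ← f1, ← prod_const]
        refine prod_le_prod (fun _ _ => pow_nonneg (hd _ _) _) fun e he => ?_
        obtain ⟨a, a1, a2⟩ := f2 e he
        rw [hκ]
        refine slot hδ hB1 hN' hm a1 (by exact_mod_cast P1 a _ a2) ?_
        have : N * (W a).card ≤ L * (W e.2).card ^ 2 := by
          rw [hNs]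
          exact (sum_le_card_nsmul _ _ _ fun k _ => P2 a _ k a2).trans (by simp)
        exact_mod_cast this
      · have : ((X ×ˢ (univ : Finset (Fin L))).powerset.card : ℝ) = (2 ^ L) ^ X.card := by
          rw [card_powerset, card_product, card_univ, Fintype.card_fin, mul_comm, pow_mul]
          push_cast
          rfl
        rw [nsmul_eq_mul, mul_assoc, mul_div_assoc (2 ^ L : ℝ), mul_pow (2 ^ L : ℝ), ← this]
        exact mul_le_mul_of_nonneg_right (by exact_mod_cast card_filter_le _ _) (pow_nonneg hσ _)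
    · rw [hκ, ← mul_div_assoc, ← mul_div_assoc, div_le_one (by positivity)]
      exact hB'
  have hq : (1 - 1 / ((2 * K : ℕ) : ℝ)) ^ (2 * K) ≤ 1 / 2 :=
    (Real.one_sub_div_pow_le_exp_neg (by exact_mod_cast (by omega : 1 ≤ 2 * K))).trans
      Real.exp_neg_one_lt_half.le
  have hK' : (1 : ℝ) ≤ ((2 * K : ℕ) : ℝ) := by exact_mod_cast (by omega : 1 ≤ 2 * K)
  have hq0 : 0 ≤ 1 - 1 / ((2 * K : ℕ) : ℝ) := sub_nonneg.2 ((div_le_one (by linarith)).2 hK')
  have hq1 : 1 - 1 / ((2 * K : ℕ) : ℝ) ≤ 1 := sub_le_self _ (by positivity)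
  have hC : ∑ j : Fin L, ∑ b ∈ ((univ.filter fun v => lev v ≤ j).powerset ×ˢ univ).filter
      (fun b : Finset (Fin N) × Finset (Fin L) => (W j).card ≤ 2 * K * (W j ∩ b.1).card ∧
        12 * K ^ 2 ≤ b.2.card ∧ ∀ i ∈ b.2, (W i).card ≤ 2 * K * (W i ∩ b.1).card),
      ∏ e ∈ (W j ∩ b.1) ×ˢ b.2, ((W e.2 \ b.1).card / (W e.2).card : ℝ) ≤ 1 / 2 := by
    refine (sum_le_card_nsmul _ _ (2 ^ L * (1 / 2) ^ (2 * L + 1)) fun j _ => ?_).trans ?_
    · refine (sum_le_card_nsmul _ _ ((1 / 8) ^ (W j).card) fun b hb => ?_).trans ?_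
      · obtain ⟨b1, b2, b3⟩ := (mem_filter.1 hb).2
        refine (prod_le_prod (g := fun _ => 1 - 1 / ((2 * K : ℕ) : ℝ)) (fun _ _ => hd _ _)
          fun e he => ?_).trans ?_
        · have c1 : ((W e.2).card : ℝ) ≤ ((2 * K : ℕ) : ℝ) * (W e.2 ∩ b.1).card := by
            exact_mod_cast b3 _ (mem_product.1 he).2
          have c2 : ((W e.2 \ b.1).card : ℝ) + (W e.2 ∩ b.1).card = (W e.2).card := by
            exact_mod_cast card_sdiff_add_card_inter _ _
          rw [div_le_iff₀ (hn _), sub_mul, one_mul, one_div, ← div_eq_inv_mul]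
          have := (div_le_iff₀' (by linarith)).2 c1
          linarith
        · rw [prod_const, card_product]
          refine (pow_le_pow_of_le_one hq0 hq1 (m := 2 * K * 3 * (W j).card) ?_).trans ?_
          · calc 2 * K * 3 * (W j).card ≤ 2 * K * 3 * (2 * K * (W j ∩ b.1).card) :=
                Nat.mul_le_mul_left _ b1
              _ = (W j ∩ b.1).card * (12 * K ^ 2) := by ring
              _ ≤ _ := Nat.mul_le_mul_left _ b2
          · rw [pow_mul, pow_mul]
            refine pow_le_pow_left₀ (by positivity) ?_ _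
            exact (pow_le_pow_left₀ (by positivity) hq 3).trans (by norm_num)
      · have c1 : B * (univ.filter fun v => lev v < j).card ≤ B * (W j).card := by
          rw [hf, mul_sum]
          refine (sum_le_card_nsmul _ _ (W j).card fun i _ => ?_).trans ?_
          · by_cases hi : i < j
            · exact (Nat.mul_le_mul_left _ (card_le_card inter_subset_left)).trans (P1 i j hi)
            · rw [card_eq_zero.2 (eq_empty_of_forall_notMem fun v hv => hi ?_)]
              · simp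
              · rw [← (hW _ _).1 (mem_inter.1 hv).1]
                exact (mem_filter.1 (mem_inter.1 hv).2).2
          · rw [card_univ, Fintype.card_fin, smul_eq_mul]
            exact Nat.mul_le_mul_right _ (by omega)
        have c2 : (univ.filter fun v => lev v ≤ j).card ≤ 2 * (W j).card := by
          have := Nat.le_of_mul_le_mul_left c1 hB0
          refine (card_le_card (t := (univ.filter fun v => lev v < j) ∪ W j) fun v hv => ?_).trans
            ((card_union_le _ _).trans (by omega))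
          simpa [hW, le_iff_lt_or_eq] using hv
        have c3 : (((univ.filter fun v => lev v ≤ j).powerset ×ˢ
            (univ : Finset (Finset (Fin L)))).card : ℝ) ≤ 4 ^ (W j).card * 2 ^ L := by
          rw [card_product, card_powerset, card_univ, Fintype.card_finset, Fintype.card_fin]
          have := Nat.pow_le_pow_right two_pos c2
          rw [pow_mul] at this
          exact_mod_cast Nat.mul_le_mul_right _ this
        rw [nsmul_eq_mul]
        refine (mul_le_mul_of_nonneg_right (le_trans (by exact_mod_cast card_filter_le _ _) c3)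
          (by positivity)).trans ?_
        rw [mul_comm (4 ^ _ : ℝ), mul_assoc, ← mul_pow]
        refine mul_le_mul_of_nonneg_left ?_ (by positivity)
        rw [show (4 * (1 / 8) : ℝ) = 1 / 2 by norm_num]
        exact pow_le_pow_of_le_one (by norm_num) (by norm_num) (hB.trans (P0 j))
    · have : (L : ℝ) ≤ 2 ^ L := by exact_mod_cast (Nat.lt_two_pow_self (n := L)).le
      rw [card_univ, Fintype.card_fin, nsmul_eq_mul, one_div, inv_pow, pow_succ, two_mul, pow_add]
      field_simp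
      exact this
  obtain ⟨ω, h1, h2⟩ := box (fun e : Fin N × Fin L => W e.2)
    (fun e => card_pos.1 (hB0.trans_le (P0 _)))
    ((((univ : Finset (Finset (Fin N))).erase ∅).sigma fun X =>
      (X ×ˢ univ).powerset.filter (fun F : Finset (Fin N × Fin L) => F.card = 4 * X.card ∧
        ∀ e ∈ F, ∃ a, δ * X.card < (W a).card ∧ a < e.2)).disjSum
      ((univ : Finset (Fin L)).sigma fun j =>
        ((univ.filter fun v => lev v ≤ j).powerset ×ˢ univ).filter
        (fun b : Finset (Fin N) × Finset (Fin L) => (W j).card ≤ 2 * K * (W j ∩ b.1).card ∧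
          12 * K ^ 2 ≤ b.2.card ∧ ∀ i ∈ b.2, (W i).card ≤ 2 * K * (W i ∩ b.1).card)))
    (Sum.elim (fun b => b.2) fun b => (W b.1 ∩ b.2.1) ×ˢ b.2.2)
    (Sum.elim (fun b _ => b.1) fun b e => W e.2 \ b.2.1) (by
      rw [sum_disjSum, sum_sigma, sum_sigma]
      exact (add_le_add hA hC).trans_lt (by norm_num))
  refine ⟨ω, fun e => (hW _ _).1 (h1 e), fun X F hX hF => not_le.1 fun hc => ?_,
    fun Y j D hY hj hD => not_le.1 fun hc => ?_⟩
  · obtain ⟨F', f1, f2⟩ := exists_subset_card_eq hc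
    obtain ⟨e, e1, e2⟩ := h2 (Sum.inl ⟨X, F'⟩) (inl_mem_disjSum.2 (mem_sigma.2
      ⟨mem_erase.2 ⟨hX, mem_univ _⟩, mem_filter.2 ⟨mem_powerset.2 fun e he =>
        mem_product.2 ⟨(hF e (f1 he)).1, mem_univ _⟩, f2, fun e he => (hF e (f1 he)).2.2⟩⟩))
    exact e2 (hF e (f1 e1)).2.1
  · obtain ⟨e, e1, e2⟩ := h2 (Sum.inr ⟨j, Y, D⟩) (inr_mem_disjSum.2 (mem_sigma.2
      ⟨mem_univ _, mem_filter.2 ⟨mem_product.2 ⟨mem_powerset.2 fun v hv =>
        mem_filter.2 ⟨mem_univ _, hY v hv⟩, mem_univ _⟩, hj, hc, fun i hi => (hD i hi).1⟩⟩))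
    obtain ⟨e3, e4⟩ := mem_product.1 e1
    exact e2 (mem_sdiff.2 ⟨h1 e, (hD _ e4).2 _ e3⟩)

/-- Levels whose sizes grow fast, with shrinking gaps on the logarithmic scale. -/
theorem sizes (L B : ℕ) (hB : 0 < B) : ∃ (N : ℕ) (lev : Fin N → Fin L)
    (W : Fin L → Finset (Fin N)), (∀ v i, v ∈ W i ↔ lev v = i) ∧ (∀ i, B ≤ (W i).card) ∧
    (∀ i j, i < j → B * (W i).card ≤ (W j).card) ∧
    ∀ i j k, i < j → (W k).card * (W i).card ≤ (W j).card ^ 2 := by
  obtain ⟨u, hu⟩ : ∃ u : Fin L → ℕ, ∀ j, u j = 2 ^ (L - 1 - j) := ⟨_, fun _ => rfl⟩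
  have h1 : ∀ j, 1 ≤ u j := fun j => hu j ▸ Nat.one_le_two_pow
  have h2 : ∀ j, 2 * u j ≤ 2 ^ L := fun j => by
    rw [hu, ← pow_succ']
    exact Nat.pow_le_pow_right two_pos (by have := j.2; omega)
  have h3 : ∀ i j, i < j → 2 * u j ≤ u i := fun i j h => by
    rw [hu, hu, ← pow_succ']
    exact Nat.pow_le_pow_right two_pos (by have := j.2; have := Fin.lt_def.1 h; omega)
  obtain ⟨n, hn⟩ : ∃ n : Fin L → ℕ, ∀ j, n j = B ^ (2 ^ L - u j) := ⟨_, fun _ => rfl⟩
  let e := Fintype.equivFin (Σ j, Fin (n j))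
  have hc : ∀ i, (univ.image fun x : Fin (n i) => e ⟨i, x⟩).card = B ^ (2 ^ L - u i) := fun i => by
    rw [card_image_of_injective _ fun x y h => by simpa using h, card_univ, Fintype.card_fin, hn]
  refine ⟨_, fun v => (e.symm v).1, fun i => univ.image fun x : Fin (n i) => e ⟨i, x⟩,
    fun v i => ?_, fun i => ?_, fun i j h => ?_, fun i j k h => ?_⟩
  · obtain ⟨⟨j, x⟩, rfl⟩ := e.surjective v
    dsimp only
    rw [e.symm_apply_apply, mem_image]
    constructor
    · rintro ⟨y, -, h⟩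
      exact (congrArg Sigma.fst (e.injective h)).symm
    · rintro rfl
      exact ⟨x, mem_univ _, rfl⟩
  · rw [hc]
    exact Nat.le_self_pow (by have := h1 i; have := h2 i; omega) B
  · rw [hc, hc, ← pow_succ']
    exact Nat.pow_le_pow_right hB (by have := h1 j; have := h2 i; have := h3 i j h; omega)
  · rw [hc, hc, hc, ← pow_add, ← pow_mul]
    refine Nat.pow_le_pow_right hB ?_
    have := h1 k; have := h2 i; have := h2 j; have := h2 k; have := h3 i j h
    omega

/-- Two opposite faces of the cube give two independent sets that almost cover `X`. -/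
theorem hall {N L d : ℕ} {δ t ε : ℝ} (hδ : 0 ≤ δ) (ht : 0 ≤ t) (hd : 0 < d) (h1 : 2 * L * δ ≤ ε)
    (h2 : 10 * t ≤ ε * d) (lev : Fin N → Fin L) (W : Fin L → Finset (Fin N))
    (hW : ∀ v i, v ∈ W i ↔ lev v = i) (p : Fin L → Fin d → Bool) (ω : Fin N × Fin L → Fin N)
    (hω : ∀ e, lev (ω e) = e.2)
    (hA : ∀ (X : Finset (Fin N)) (F : Finset (Fin N × Fin L)), X ≠ ∅ →
      (∀ e ∈ F, e.1 ∈ X ∧ ω e ∈ X ∧ ∃ a, δ * X.card < (W a).card ∧ a < e.2) →
      F.card < 4 * X.card) (G : SimpleGraph (Fin N))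
    (hG : ∀ u v, G.Adj u v → ∃ u' v', (u' = u ∧ v' = v ∨ u' = v ∧ v' = u) ∧
      (∑ c, if p (lev u') c = p (lev v') c then (1 : ℝ) else 0) < t ∧ ω (v', lev u') = u')
    (X : Finset (Fin N)) :
    ∃ I ⊆ X, ∃ J ⊆ X, G.IsIndepSet (I : Set (Fin N)) ∧ G.IsIndepSet (J : Set (Fin N)) ∧
      ((X \ (I ∪ J)).card : ℝ) ≤ ε * X.card := by
  classical
  rcases eq_or_ne X ∅ with rfl | hX
  · exact ⟨∅, Subset.rfl, ∅, Subset.rfl, by simp, by simp, by simp⟩
  obtain ⟨Z, hZ⟩ : ∃ Z, Z = X.filter fun v => δ * X.card < (W (lev v)).card := ⟨_, rfl⟩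
  have hm : (0 : ℝ) ≤ X.card := Nat.cast_nonneg _
  have a1 : (X.card : ℝ) ≤ Z.card + L * (δ * X.card) := by
    have b1 : ((X \ Z).card : ℝ) ≤ L * (δ * X.card) := by
      rw [card_eq_sum_card_fiberwise (f := lev) (t := univ) fun _ _ => mem_coe.2 (mem_univ _)]
      push_cast
      refine (sum_le_card_nsmul _ _ (δ * X.card) fun i _ => ?_).trans (by simp)
      rcases ((X \ Z).filter fun v => lev v = i).eq_empty_or_nonempty with h | ⟨v, hv⟩
      · rw [h]
        simpa using mul_nonneg hδ hm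
      · obtain ⟨v1, rfl⟩ := mem_filter.1 hv
        obtain ⟨v2, v3⟩ := mem_sdiff.1 v1
        refine le_trans ?_ (not_lt.1 fun h => v3 (hZ ▸ mem_filter.2 ⟨v2, h⟩))
        exact_mod_cast card_le_card fun w hw => (hW _ _).2 (mem_filter.1 hw).2
    have b2 : (X.card : ℝ) ≤ (X \ Z).card + Z.card := by exact_mod_cast card_le_card_sdiff_add_card
    linarith
  have hZX : ∀ v ∈ Z, v ∈ X ∧ δ * X.card < (W (lev v)).card := fun v hv => mem_filter.1 (hZ ▸ hv)
  obtain ⟨E, hE⟩ : ∃ E : Finset (Fin N × Fin L), ∀ e, e ∈ E ↔ e.1 ∈ Z ∧ ω e ∈ Z ∧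
      (∑ c, if p e.2 c = p (lev e.1) c then (1 : ℝ) else 0) < t :=
    ⟨univ.filter _, fun e => mem_filter.trans (and_iff_right (mem_univ _))⟩
  have a2 : (E.card : ℝ) ≤ 5 * X.card := by
    have b1 := hA X (E.filter fun e => ∃ a, δ * X.card < (W a).card ∧ a < e.2) hX fun e he =>
      ⟨(hZX _ ((hE e).1 (mem_filter.1 he).1).1).1, (hZX _ ((hE e).1 (mem_filter.1 he).1).2.1).1,
        (mem_filter.1 he).2⟩
    have b2 : (E.filter fun e => ¬ ∃ a, δ * X.card < (W a).card ∧ a < e.2).card ≤ X.card := by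
      refine card_le_card_of_injOn Prod.fst (fun e he => ?_) fun e he e' he' h => Prod.ext h ?_
      · exact (hZX _ ((hE e).1 (mem_filter.1 he).1).1).1
      · obtain ⟨c1, c2⟩ := mem_filter.1 he
        obtain ⟨c3, c4⟩ := mem_filter.1 he'
        exact le_antisymm (not_lt.1 fun h => c2 ⟨_, hω e' ▸ (hZX _ ((hE _).1 c3).2.1).2, h⟩)
          (not_lt.1 fun h => c4 ⟨_, hω e ▸ (hZX _ ((hE _).1 c1).2.1).2, h⟩)
    have b3 := card_filter_add_card_filter_not (s := E)
      fun e => ∃ a, δ * X.card < (W a).card ∧ a < e.2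
    exact_mod_cast (by omega : E.card ≤ 5 * X.card)
  have a3 : ∑ x : Fin d × Bool, ((Z.filter fun v => p (lev v) x.1 = x.2).card : ℝ) =
      d * Z.card := by
    simp only [card_filter, Nat.cast_sum]
    rw [sum_comm, mul_comm, ← nsmul_eq_mul, ← sum_const]
    refine sum_congr rfl fun v _ => ?_
    rw [Fintype.sum_prod_type]
    simp
  have a4 : ∑ x : Fin d × Bool,
      ((E.filter fun e => p (lev e.1) x.1 = x.2 ∧ p e.2 x.1 = x.2).card : ℝ) ≤ E.card * t := by
    simp only [card_filter, Nat.cast_sum]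
    rw [sum_comm, ← nsmul_eq_mul]
    refine sum_le_card_nsmul _ _ _ fun e he => le_trans ?_ ((hE e).1 he).2.2.le
    rw [Fintype.sum_prod_type]
    refine sum_le_sum fun c _ => ?_
    rw [Fintype.sum_bool]
    dsimp only
    cases p (lev e.1) c <;> cases p e.2 c <;> simp
  rw [Fintype.sum_prod_type] at a3 a4
  obtain ⟨x, -, hx⟩ := exists_le_of_sum_le (s := (univ : Finset (Fin d)))
    (f := fun _ => (1 - ε) * X.card)
    (g := fun x => ∑ y : Bool, ((Z.filter fun v => p (lev v) x = y).card : ℝ) -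
      ∑ y : Bool, ((E.filter fun e => p (lev e.1) x = y ∧ p e.2 x = y).card : ℝ))
    ⟨⟨0, hd⟩, mem_univ _⟩ (by
      rw [sum_sub_distrib, a3, sum_const, card_univ, Fintype.card_fin, nsmul_eq_mul]
      have hd' : (0 : ℝ) ≤ d := Nat.cast_nonneg _
      nlinarith [mul_le_mul_of_nonneg_left a1 hd', mul_le_mul_of_nonneg_right a2 ht,
        mul_le_mul_of_nonneg_right h2 hm, mul_le_mul_of_nonneg_right h1 (mul_nonneg hd' hm)])
  obtain ⟨S, hS⟩ : ∃ S : Bool → Finset (Fin N), ∀ y, S y = (Z.filter fun v => p (lev v) x = y) \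
    (E.filter fun e => p (lev e.1) x = y ∧ p e.2 x = y).image Prod.fst := ⟨_, fun _ => rfl⟩
  have s1 : ∀ y, S y ⊆ X := fun y v hv =>
    (hZX _ (mem_filter.1 (mem_sdiff.1 (hS y ▸ hv)).1).1).1
  have s2 : ∀ y, G.IsIndepSet (S y : Set (Fin N)) := fun y u hu v hv _ huv => by
    obtain ⟨u', v', c1, c2, c3⟩ := hG u v huv
    have c4 := mem_sdiff.1 (hS y ▸ mem_coe.1 hu)
    have c5 := mem_sdiff.1 (hS y ▸ mem_coe.1 hv)
    rw [mem_filter] at c4 c5
    rcases c1 with ⟨rfl, rfl⟩ | ⟨rfl, rfl⟩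
    · exact c5.2 (mem_image.2 ⟨(v', lev u'), mem_filter.2
        ⟨(hE _).2 ⟨c5.1.1, c3.symm ▸ c4.1.1, c2⟩, c5.1.2, c4.1.2⟩, rfl⟩)
    · exact c4.2 (mem_image.2 ⟨(v', lev u'), mem_filter.2
        ⟨(hE _).2 ⟨c4.1.1, c3.symm ▸ c5.1.1, c2⟩, c4.1.2, c5.1.2⟩, rfl⟩)
  have s3 : ∀ y, ((Z.filter fun v => p (lev v) x = y).card : ℝ) ≤ (S y).card +
      (E.filter fun e => p (lev e.1) x = y ∧ p e.2 x = y).card := fun y => by
    rw [hS]
    exact_mod_cast card_le_card_sdiff_add_card.trans (Nat.add_le_add_left card_image_le _)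
  have s4 : Disjoint (S true) (S false) := disjoint_left.2 fun v h1 h2 => by
    have c1 := (mem_filter.1 (mem_sdiff.1 (hS true ▸ h1)).1).2
    have c2 := (mem_filter.1 (mem_sdiff.1 (hS false ▸ h2)).1).2
    simp [c1] at c2
  refine ⟨S true, s1 _, S false, s1 _, s2 _, s2 _, ?_⟩
  have s5 := card_sdiff_add_card_eq_card (union_subset (s1 true) (s1 false))
  rw [card_union_of_disjoint s4] at s5
  have s6 : ((X \ (S true ∪ S false)).card : ℝ) + ((S true).card + (S false).card) = X.card := by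
    exact_mod_cast s5
  simp only [Fintype.sum_bool] at hx
  linarith [s3 true, s3 false]

/-- Every vertex set `X` is bipartite up to `ε |X|` vertices, and the fractional chromatic number
is at least `K`. -/
theorem result (ε : ℝ) (hε : 0 < ε) (K : ℕ) :
    ∃ (n : ℕ) (G : SimpleGraph (Fin n)),
      (∀ X : Finset (Fin n), ∃ I ⊆ X, ∃ J ⊆ X, G.IsIndepSet (I : Set (Fin n)) ∧
        G.IsIndepSet (J : Set (Fin n)) ∧ ((X \ (I ∪ J)).card : ℝ) ≤ ε * X.card) ∧
      ∀ (a b : ℕ) (c : Fin n → Finset (Fin a)), (∀ v, (c v).card = b) →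
        (∀ u v, G.Adj u v → Disjoint (c u) (c v)) → K * b ≤ a := by
  classical
  wlog hK : 0 < K generalizing K
  · obtain ⟨n, G, h1, -⟩ := this 1 one_pos
    exact ⟨n, G, h1, fun a b _ _ _ => by simp [Nat.eq_zero_of_not_pos hK]⟩
  obtain ⟨T, hT⟩ := exists_nat_ge (10 / ε)
  rw [div_le_iff₀ hε] at hT
  have hT0 : 0 < T := Nat.pos_of_ne_zero fun h => by norm_num [h] at hT
  obtain ⟨t, ht⟩ : ∃ t, t = 2 * K * (12 * K ^ 2) * T := ⟨_, rfl⟩
  have ht0 : 0 < t := by rw [ht]; positivity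
  obtain ⟨d, hd⟩ : ∃ d, d = T * t := ⟨_, rfl⟩
  obtain ⟨L, hL⟩ : ∃ L, 2 ^ d = L := ⟨_, rfl⟩
  have hL0 : 0 < L := hL ▸ Nat.two_pow_pos d
  have hL1 : (0 : ℝ) < L := by exact_mod_cast hL0
  obtain ⟨δ, hδ⟩ : ∃ δ : ℝ, δ = ε / (2 * L) := ⟨_, rfl⟩
  have hδ0 : 0 < δ := by rw [hδ]; positivity
  obtain ⟨B, hB⟩ := exists_nat_ge (12 * (2 ^ L * L) / δ ^ 3)
  rw [div_le_iff₀' (pow_pos hδ0 3)] at hB
  obtain ⟨N, lev, W, hW, P0, P1, P2⟩ := sizes L (B + (2 * L + 1)) (by omega)
  have hn : ∀ i, 0 < (W i).card := fun i => lt_of_lt_of_le (by omega) (P0 i)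
  have hN : 0 < N := by
    obtain ⟨v, -⟩ := card_pos.1 (hn ⟨0, hL0⟩)
    exact v.pos
  obtain ⟨ω, hω, hA, hC⟩ := exist hδ0 lev W hW hK hN (Nat.le_add_left _ _) (hB.trans
    (mul_le_mul_of_nonneg_left (by exact_mod_cast (by nlinarith : B ≤ (B + (2 * L + 1)) ^ 2))
      (pow_pos hδ0 3).le)) P0 P1 P2
  let p : Fin L → Fin d → Bool := (Fintype.equivFinOfCardEq (by simpa using hL)).symm
  have htd : (t : ℝ) ≤ d := by exact_mod_cast hd ▸ Nat.le_mul_of_pos_left t hT0
  refine ⟨N, SimpleGraph.fromRel fun u v => lev u < lev v ∧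
    (∑ c, if p (lev u) c = p (lev v) c then (1 : ℝ) else 0) < t ∧ ω (v, lev u) = u,
    hall hδ0.le (Nat.cast_nonneg t) (hd ▸ Nat.mul_pos hT0 ht0) (le_of_eq (by rw [hδ]; field_simp))
      ?_ lev W hW p ω hω hA _ fun u v h => ?_, fun a b c hb hc => ?_⟩
  · rw [hd]
    push_cast
    nlinarith [mul_le_mul_of_nonneg_right hT (Nat.cast_nonneg t)]
  · rcases ((SimpleGraph.fromRel_adj _ _ _).1 h).2 with h | h
    exacts [⟨u, v, Or.inl ⟨rfl, rfl⟩, h.2⟩, ⟨v, u, Or.inr ⟨rfl, rfl⟩, h.2⟩]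
  have hK' : (0 : ℝ) < K := by exact_mod_cast hK
  have hn' : ∀ i, (0 : ℝ) < (W i).card := fun i => by exact_mod_cast hn i
  have key : ∀ κ : Fin a, ∑ i, ((W i ∩ univ.filter fun v => κ ∈ c v).card / (W i).card : ℝ) ≤
      L / K := fun κ => by
    obtain ⟨Y, hY⟩ : ∃ Y, Y = univ.filter fun v => κ ∈ c v := ⟨_, rfl⟩
    have hY' : ∀ v ∈ Y, κ ∈ c v := fun v hv => by simpa [hY] using hv
    rw [← hY]
    obtain ⟨H, hH⟩ : ∃ H : Finset (Fin L), ∀ i, i ∈ H ↔ (W i).card ≤ 2 * K * (W i ∩ Y).card :=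
      ⟨univ.filter _, fun e => mem_filter.trans (and_iff_right (mem_univ _))⟩
    have b1 := heavy (s := 12 * K ^ 2) (by positivity) (Nat.cast_nonneg t) htd p
      (Equiv.injective _) H fun j hj D hD h => by
      have b2 : ∀ i, i ≤ j → W i ∩ Y.filter (fun v => lev v ≤ j) = W i ∩ Y := fun i hi => by
        ext v
        simp only [mem_inter, mem_filter, hW]
        exact ⟨fun h => ⟨h.1, h.2.1⟩, fun h => ⟨h.1, h.2, h.1 ▸ hi⟩⟩
      refine hC (Y.filter fun v => lev v ≤ j) j D (fun v hv => (mem_filter.1 hv).2)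
        (by rw [b2 j le_rfl]; exact (hH j).1 hj) fun i hi =>
        ⟨by rw [b2 i (h i hi).1.le]; exact (hH i).1 (hD hi), fun v hv hu => ?_⟩
      obtain ⟨v1, v2⟩ := mem_inter.1 hv
      obtain rfl := (hW _ _).1 v1
      have b3 : lev (ω (v, i)) = i := hω _
      refine disjoint_left.1 (hc (ω (v, i)) v ((SimpleGraph.fromRel_adj _ _ _).2
        ⟨fun e => (h i hi).1.ne (by rw [← b3, e]), Or.inl ?_⟩))
        (hY' _ (mem_filter.1 hu).1) (hY' _ (mem_filter.1 v2).1)
      rw [b3]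
      exact ⟨(h i hi).1, (h i hi).2, rfl⟩
    have b2 : (H.card : ℝ) ≤ L / (2 * K) := by
      have c1 : H.card * t ^ 2 ≤ 12 * K ^ 2 * (2 ^ d * d) := by exact_mod_cast b1
      rw [hL, hd] at c1
      have c2 : H.card * (2 * K) * (12 * K ^ 2 * T * t) ≤ L * (12 * K ^ 2 * T * t) := by
        refine le_of_eq_of_le ?_ (c1.trans_eq (by ring))
        rw [sq t]
        nth_rewrite 2 [ht]
        ring
      rw [le_div_iff₀ (by positivity)]
      exact_mod_cast Nat.le_of_mul_le_mul_right c2 (by positivity)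
    calc ∑ i, ((W i ∩ Y).card / (W i).card : ℝ)
        ≤ ∑ i, ((if i ∈ H then 1 else 0) + 1 / (2 * K) : ℝ) := sum_le_sum fun i _ => by
          split_ifs with hi
          · refine le_add_of_le_of_nonneg ((div_le_one (hn' i)).2 ?_) (by positivity)
            exact_mod_cast card_le_card inter_subset_left
          · rw [zero_add, div_le_div_iff₀ (hn' i) (by positivity), one_mul, mul_comm]
            exact_mod_cast (not_le.1 fun h => hi ((hH i).2 h)).le
      _ = H.card + L / (2 * K) := by simp [sum_add_distrib, div_eq_mul_inv]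
      _ ≤ L / (2 * K) + L / (2 * K) := by linarith
      _ = L / K := by field_simp; ring
  have h1 := sum_le_card_nsmul univ _ _ fun κ _ => key κ
  have h2 : ∀ i, ∑ κ : Fin a, ((W i ∩ univ.filter fun v => κ ∈ c v).card / (W i).card : ℝ) = b :=
    fun i => by
      rw [← sum_div, div_eq_iff (hn' i).ne']
      have : ∑ κ : Fin a, (W i ∩ univ.filter fun v => κ ∈ c v).card = b * (W i).card := by
        simp only [inter_filter, inter_univ, card_filter]
        rw [sum_comm]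
        simp [hb, mul_comm]
      exact_mod_cast this
  rw [sum_comm] at h1
  simp only [h2, sum_const, card_univ, Fintype.card_fin, nsmul_eq_mul] at h1
  rw [← mul_div_assoc, le_div_iff₀ hK'] at h1
  have h3 : (K : ℝ) * b ≤ a := le_of_mul_le_mul_left (by linarith) hL1
  exact_mod_cast h3

/-- The earlier form: Hall ratio near `2` and fractional chromatic number at least `K`. -/
theorem hall_ratio (ε : ℝ) (hε : 0 < ε) (K : ℕ) :
    ∃ (n : ℕ) (G : SimpleGraph (Fin n)),
      (∀ X : Finset (Fin n), ∃ I ⊆ X, G.IsIndepSet (I : Set (Fin n)) ∧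
        (1 - ε) * X.card / 2 ≤ I.card) ∧
      ∀ (a b : ℕ) (c : Fin n → Finset (Fin a)), (∀ v, (c v).card = b) →
        (∀ u v, G.Adj u v → Disjoint (c u) (c v)) → K * b ≤ a := by
  obtain ⟨n, G, h1, h2⟩ := result ε hε K
  refine ⟨n, G, fun X => ?_, h2⟩
  obtain ⟨I, hI, J, hJ, a, b, c⟩ := h1 X
  have d : (X.card : ℝ) ≤ (X \ (I ∪ J)).card + (I.card + J.card) := by
    exact_mod_cast card_le_card_sdiff_add_card.trans (Nat.add_le_add_left (card_union_le _ _) _)
  rcases le_total (I.card : ℝ) J.card with e | e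
  · exact ⟨J, hJ, b, by linarith⟩
  · exact ⟨I, hI, a, by linarith⟩

end Pool.Agent.Results.MP_2abbea_co.HallRatio
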