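import Pool.Agent.Lib.MP_2abbea_co.Grid

set_option autoImplicit false

namespace Pool.Agent.Results.MP_2abbea_co.QuadraticLower

open Pool.Agent.MP_2abbea_co

theorem result (k : ℕ) : ∃ (n : ℕ) (G : SimpleGraph (Fin n)),
    (∀ S : Finset (Fin n), ∃ I : Finset (Fin n), I ⊆ S ∧
        G.IsIndepSet (I : Set (Fin n)) ∧ (S.card : ℝ) / 2 - (k : ℝ) ≤ (I.card : ℝ)) ∧
    (∀ U : Set (Fin n), ∃ A C : Set (Fin n),
        G.IsIndepSet A ∧ G.IsIndepSet C ∧ (A ∪ C = U ∨ A ∪ C = Uᶜ)) ∧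
    ∀ S₁ S₂ S₃ : Finset (Fin n), G.IsIndepSet (S₁ : Set (Fin n)) →
        G.IsIndepSet (S₂ : Set (Fin n)) → S₁ ∪ S₂ ∪ S₃ = Finset.univ →
        k ^ 2 + 2 * k ≤ S₃.card + 1 := by
  classical
  rcases Nat.eq_zero_or_pos k with rfl | hk
  · refine ⟨0, ⊥, fun S => ⟨S, subset_rfl, fun x => x.elim0, ?_⟩,
      fun U => ⟨U, U, fun x => x.elim0, fun x => x.elim0, Or.inl (Set.union_self U)⟩,
      fun _ _ _ _ _ _ => by simp⟩
    have : (0 : ℝ) ≤ S.card := Nat.cast_nonneg _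
    push_cast
    linarith
  obtain ⟨m, hm⟩ : ∃ m, k ^ 2 + 2 * k = m + 1 := ⟨k ^ 2 + 2 * k - 1, by omega⟩
  let σ := Fintype.equivFin (Bv m ⊕ (Bv m × Bool))
  let H := Gr (gs (m := m)) gt gp gq
  have back : ∀ A : Set (Bv m ⊕ (Bv m × Bool)), H.IsIndepSet A →
      (H.comap σ.symm).IsIndepSet (σ.symm ⁻¹' A) := fun A hA x hx y hy hne hxy =>
    hA hx hy (fun h => hne (σ.symm.injective h)) hxy
  have forth : ∀ A : Set (Fin (Fintype.card (Bv m ⊕ (Bv m × Bool)))),
      (H.comap σ.symm).IsIndepSet A → H.IsIndepSet (σ ⁻¹' A) := fun A hA x hx y hy hne hxy =>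
    hA hx hy (fun h => hne (σ.injective h)) (by simpa using hxy)
  refine ⟨_, H.comap σ.symm, fun S => ?_, fun U => ?_, fun S₁ S₂ S₃ h1 h2 h3 => ?_⟩
  · obtain ⟨I, i1, i2, i3⟩ := big_indep (gs (m := m)) gt gp gq k
      (by rw [Fintype.card_fin]; omega) grid_alt (S.map σ.symm.toEmbedding)
    refine ⟨I.map σ.toEmbedding, fun x hx => ?_, ?_, ?_⟩
    · rw [Finset.mem_map_equiv] at hx
      have := i1 hx
      rw [Finset.mem_map_equiv] at this
      simpa using this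
    · have := back _ i2
      convert this using 1
      ext x
      simp
    · rw [Finset.card_map] at i3 ⊢
      have : (S.card : ℝ) ≤ 2 * I.card + 2 * k := by exact_mod_cast i3
      linarith
  · rcases grid_alt {b : Bv m | Sum.inl b ∈ σ ⁻¹' U} with h | h
    · obtain ⟨A, C, a, c, e⟩ := two_indep (σ ⁻¹' U) h
      refine ⟨_, _, back A a, back C c, Or.inl ?_⟩
      rw [← Set.preimage_union, e]
      ext x
      simp
    · obtain ⟨A, C, a, c, e⟩ := two_indep (σ ⁻¹' U)ᶜ h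
      refine ⟨_, _, back A a, back C c, Or.inr ?_⟩
      rw [← Set.preimage_union, e]
      ext x
      simp
  · have := grid_transversal (σ ⁻¹' S₁) (σ ⁻¹' S₂) (S₃.map σ.symm.toEmbedding)
      (forth _ h1) (forth _ h2) fun x hx => by
        rw [Finset.mem_map_equiv] at hx
        have h4 : σ x ∈ S₁ ∪ S₂ ∪ S₃ := h3 ▸ Finset.mem_univ _
        rcases Finset.mem_union.1 h4 with h5 | h5
        · exact Finset.mem_union.1 h5
        · exact absurd (by simpa using h5) hx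
    rw [Finset.card_map] at this
    omega

end Pool.Agent.Results.MP_2abbea_co.QuadraticLower
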